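import Pool.Agent.Helper10.AB.GoalsF4

/-! # Project AB (MP_1ef41b_an), module FM: packet BDD -/

open MeasureTheory Set Filter Topology
open scoped ContDiff

noncomputable section

namespace Pool.Agent.Helper10.AB

open Pool.Agent.Helper24.AB
open Pool.Agent.Helper15.AB (S_XI S_ATL XiI)

theorem bdd : S_XI → S_EQV → S_BDD := by
  intro hXI _ a A δ₀ ρ₀ s p B hD
  obtain ⟨hX1, hX2, hX3, hX4, hX5, hX6, hX7, hX8⟩ := hXI a A s p hD.prof hD.pot.smooth
  have ha := hD.prof.a_pos
  have hreopen : IsOpen {P : V4 | |(P 3).re| < 3 * a / 2} := by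
    apply isOpen_lt _ continuous_const
    exact (Complex.continuous_re.comp (continuous_apply 3)).abs
  have hsum : Continuous fun q : (Fin 4 → ℝ) × (Fin 4 → ℝ) => ∑ i, q.1 i ^ 2 := by
    apply continuous_finset_sum
    intro i _
    exact ((continuous_apply i).comp continuous_fst).pow 2
  have hOmt : Omt a A s p = {P : V4 | |(P 3).re| < 3 * a / 2} ∩
      XiI a A s p ⁻¹' {q | (∑ i, q.1 i ^ 2) < a ^ 2} := by
    ext P
    constructor
    · intro hP
      refine ⟨hP.1, ?_⟩
      have h := hX7 (XiI a A s p P)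
      rw [hX4] at h
      exact h.1 hP
    · rintro ⟨_, h2⟩
      have h := hX7 (XiI a A s p P)
      rw [hX4] at h
      exact h.2 h2
  have hOpen : IsOpen (Omt a A s p) := by
    rw [hOmt]
    exact hX2.continuousOn.isOpen_inter_preimage hreopen (isOpen_lt hsum continuous_const)
  have hFund : Fund a A s p = Omt a A s p ∩ ⋂ i : Fin 4,
      {P : V4 | 0 ≤ (P i).im} ∩ {P : V4 | (P i).im < 2 * Real.pi} := by
    ext P
    simp only [Fund, mem_setOf_eq, mem_inter_iff, mem_iInter]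
  have him : ∀ i : Fin 4, Continuous fun P : V4 => (P i).im := fun i =>
    Complex.continuous_im.comp (continuous_apply i)
  have hmeas : MeasurableSet (Fund a A s p) := by
    rw [hFund]
    refine hOpen.measurableSet.inter (MeasurableSet.iInter fun i => ?_)
    exact (isClosed_le continuous_const (him i)).measurableSet.inter
      (isOpen_lt (him i) continuous_const).measurableSet
  refine ⟨hmeas, fun G hG => ?_⟩
  -- the compact set
  set K0 : Set ((Fin 4 → ℝ) × (Fin 4 → ℝ)) :=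
    {q | (∑ i, q.1 i ^ 2) ≤ a ^ 2 ∧ ∀ i, 0 ≤ q.2 i ∧ q.2 i ≤ 2 * Real.pi} with hK0
  have hK0c : IsCompact K0 := by
    have hsub : K0 ⊆ (Set.pi Set.univ fun _ : Fin 4 => Icc (-a) a) ×ˢ
        (Set.pi Set.univ fun _ : Fin 4 => Icc 0 (2 * Real.pi)) := by
      rintro q ⟨h1, h2⟩
      refine ⟨fun i _ => ?_, fun i _ => ⟨(h2 i).1, (h2 i).2⟩⟩
      have h3 : q.1 i ^ 2 ≤ a ^ 2 :=
        (Finset.single_le_sum (f := fun i => q.1 i ^ 2) (fun j _ => sq_nonneg _)
          (Finset.mem_univ i)).trans h1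
      exact ⟨(abs_le.1 (abs_le_of_sq_le_sq h3 ha.le)).1, (abs_le.1 (abs_le_of_sq_le_sq h3 ha.le)).2⟩
    refine IsCompact.of_isClosed_subset ((isCompact_univ_pi fun _ => isCompact_Icc).prod
      (isCompact_univ_pi fun _ => isCompact_Icc)) ?_ hsub
    have h1 : IsClosed {q : (Fin 4 → ℝ) × (Fin 4 → ℝ) | (∑ i, q.1 i ^ 2) ≤ a ^ 2} :=
      isClosed_le hsum continuous_const
    have h2 : IsClosed {q : (Fin 4 → ℝ) × (Fin 4 → ℝ) |
        ∀ i, 0 ≤ q.2 i ∧ q.2 i ≤ 2 * Real.pi} := by
      rw [Set.setOf_forall]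
      refine isClosed_iInter fun i => ?_
      have hc : Continuous fun q : (Fin 4 → ℝ) × (Fin 4 → ℝ) => q.2 i :=
        (continuous_apply i).comp continuous_snd
      exact (isClosed_le continuous_const hc).inter (isClosed_le hc continuous_const)
    exact h1.inter h2
  have hK0sub : K0 ⊆ {q | |q.1 3| < 3 * a / 2} := by
    rintro q ⟨h1, _⟩
    have h3 : q.1 3 ^ 2 ≤ a ^ 2 :=
      (Finset.single_le_sum (f := fun i => q.1 i ^ 2) (fun j _ => sq_nonneg _)
        (Finset.mem_univ 3)).trans h1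
    have := abs_le_of_sq_le_sq h3 ha.le
    simp only [mem_setOf_eq]
    linarith
  have hKc : IsCompact (Xi a A s p '' K0) :=
    hK0c.image_of_continuousOn (hX1.continuousOn.mono hK0sub)
  have hKcl : Xi a A s p '' K0 ⊆ closure (Omt a A s p) := by
    rintro _ ⟨q, hq, rfl⟩
    exact (hX8 q).2 hq.1
  have hFK : Fund a A s p ⊆ Xi a A s p '' K0 := by
    rintro P ⟨hP1, hP2⟩
    refine ⟨XiI a A s p P, ⟨?_, ?_⟩, hX4 P⟩
    · rw [hOmt] at hP1
      exact le_of_lt hP1.2
    · intro i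
      exact ⟨(hP2 i).1, (hP2 i).2.le⟩
  have hcont : ContinuousOn (fun P => ‖G P‖ ^ 2) (Xi a A s p '' K0) :=
    ((hG.mono hKcl).norm).pow 2
  exact (hcont.integrableOn_compact hKc).mono_set hFK

end Pool.Agent.Helper10.AB
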