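import Pool.Agent.Helper10.AB.GoalsF1

/-! Packet AB FM PARS (MP_1ef41b_an): Parseval on the torus. -/

open MeasureTheory Set Filter Topology
open scoped ComplexConjugate Pointwise

noncomputable section

namespace Pool.Agent.Helper31.AB.PARS

open Pool.Agent.Helper10.AB Pool.Agent.Helper24.AB

local instance : MeasureSpace UnitAddCircle := ⟨AddCircle.haarAddCircle⟩

local instance : Measure.IsAddHaarMeasure (volume : Measure UnitAddCircle) :=
  inferInstanceAs (Measure.IsAddHaarMeasure AddCircle.haarAddCircle)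

local instance : IsProbabilityMeasure (volume : Measure UnitAddCircle) :=
  inferInstanceAs (IsProbabilityMeasure AddCircle.haarAddCircle)

/-- the covering map -/
def pr (x : Fin 3 → ℝ) : UnitAddTorus (Fin 3) := fun i => (x i : UnitAddCircle)

theorem pr_quot : IsOpenQuotientMap pr := by
  have h : ∀ _ : Fin 3, IsOpenQuotientMap (fun x : ℝ => (x : UnitAddCircle)) :=
    fun _ => QuotientAddGroup.isOpenQuotientMap_mk
  exact IsOpenQuotientMap.piMap h

theorem pr_eq {x y : Fin 3 → ℝ} (h : pr x = pr y) : ∃ k : Fin 3 → ℤ, ∀ i, y i = x i + k i := by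
  have h1 : ∀ i, ∃ n : ℤ, y i = x i + n := by
    intro i
    have h2 : (x i : UnitAddCircle) = (y i : UnitAddCircle) := congrFun h i
    have h3 : ((y i - x i : ℝ) : UnitAddCircle) = 0 := by
      rw [AddCircle.coe_sub, h2, sub_self]
    obtain ⟨n, hn⟩ := (AddCircle.coe_eq_zero_iff (1 : ℝ)).1 h3
    refine ⟨n, ?_⟩
    rw [zsmul_eq_mul, mul_one] at hn
    rw [hn]
    ring
  exact ⟨fun i => (h1 i).choose, fun i => (h1 i).choose_spec⟩

/-- the covering map, bundled -/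
def prC : C(Fin 3 → ℝ, UnitAddTorus (Fin 3)) := ⟨pr, pr_quot.continuous⟩

theorem prC_quot : IsQuotientMap prC := pr_quot.isQuotientMap

/-- the lifted function -/
def psi {φ : (Fin 3 → ℝ) → ℂ} (h : CPer φ) : C(Fin 3 → ℝ, ℂ) :=
  ⟨fun x => φ ((2 * Real.pi) • x), h.1.comp (continuous_const_smul _)⟩

theorem psi_fac {φ : (Fin 3 → ℝ) → ℂ} (h : CPer φ) : Function.FactorsThrough (psi h) prC := by
  intro x y hxy
  obtain ⟨k, hk⟩ := pr_eq hxy
  change φ ((2 * Real.pi) • x) = φ ((2 * Real.pi) • y)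
  rw [← h.2 ((2 * Real.pi) • x) k]
  congr 1
  funext i
  simp only [tr2, Pi.smul_apply, smul_eq_mul, hk i]
  ring

/-- the function on the torus -/
def dn {φ : (Fin 3 → ℝ) → ℂ} (h : CPer φ) : C(UnitAddTorus (Fin 3), ℂ) :=
  prC_quot.lift (psi h) (psi_fac h)

theorem dn_pr {φ : (Fin 3 → ℝ) → ℂ} (h : CPer φ) (x : Fin 3 → ℝ) :
    dn h (pr x) = φ ((2 * Real.pi) • x) := by
  have := congrArg (fun f : C(Fin 3 → ℝ, ℂ) => f x)
    (prC_quot.lift_comp (psi h) (psi_fac h))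
  exact this

theorem int_eq (G : UnitAddTorus (Fin 3) → ℂ) (g : (Fin 3 → ℝ) → ℂ)
    (h : ∀ x, G (pr x) = g ((2 * Real.pi) • x)) :
    ∫ t, G t = (((2 * Real.pi) ^ 3)⁻¹ : ℝ) * ∫ θ in T3, g θ := by
  have hpi : (0 : ℝ) < 2 * Real.pi := by positivity
  rw [UnitAddTorus.integral_preimage G 0]
  have e1 : ∫ x in {x : Fin 3 → ℝ | ∀ i, x i ∈ Ioc ((0 : Fin 3 → ℝ) i) ((0 : Fin 3 → ℝ) i + 1)},
      G (fun i => (x i : UnitAddCircle)) =
      ∫ x in {x : Fin 3 → ℝ | ∀ i, x i ∈ Ioc ((0 : Fin 3 → ℝ) i) ((0 : Fin 3 → ℝ) i + 1)},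
      g ((2 * Real.pi) • x) := by
    congr 1
    funext x
    exact h x
  rw [e1, Measure.setIntegral_comp_smul_of_pos _ _ _ hpi]
  have e2 : (2 * Real.pi) • {x : Fin 3 → ℝ | ∀ i, x i ∈ Ioc ((0 : Fin 3 → ℝ) i)
      ((0 : Fin 3 → ℝ) i + 1)} = Set.pi Set.univ fun _ => Ioc 0 (2 * Real.pi) := by
    ext x
    rw [mem_smul_set_iff_inv_smul_mem₀ hpi.ne']
    simp only [mem_ofPred_eq, Pi.zero_apply, zero_add, Pi.smul_apply, smul_eq_mul, mem_Ioc, Set.mem_pi,
      mem_univ, true_implies]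
    refine forall_congr' fun i => ?_
    rw [inv_mul_le_iff₀ hpi, mul_one]
    constructor
    · rintro ⟨h1, h2⟩
      refine ⟨?_, h2⟩
      by_contra h3
      push Not at h3
      have : (2 * Real.pi)⁻¹ * x i ≤ 0 := mul_nonpos_of_nonneg_of_nonpos (by positivity) h3
      linarith
    · rintro ⟨h1, h2⟩
      exact ⟨by positivity, h2⟩
  have e3 : (Set.pi Set.univ fun _ : Fin 3 => Ioc (0 : ℝ) (2 * Real.pi)) =ᵐ[volume] T3 := by
    have h1 := Measure.univ_pi_Ioc_ae_eq_Icc (μ := fun _ : Fin 3 => (volume : Measure ℝ))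
      (f := fun _ => (0 : ℝ)) (g := fun _ => 2 * Real.pi)
    have h2 := Measure.univ_pi_Ico_ae_eq_Icc (μ := fun _ : Fin 3 => (volume : Measure ℝ))
      (f := fun _ => (0 : ℝ)) (g := fun _ => 2 * Real.pi)
    exact h1.trans h2.symm
  rw [e2, setIntegral_congr_set e3, Module.finrank_fin_fun]
  rw [Complex.real_smul]

theorem mf_pr (J : Fin 3 → ℤ) (x : Fin 3 → ℝ) : UnitAddTorus.mFourier (-J) (pr x) =
    Complex.exp (-(Complex.I * (Jd J ((2 * Real.pi) • x) : ℝ))) := by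
  change (∏ i : Fin 3, fourier ((-J) i) (pr x i)) = _
  simp only [pr, fourier_coe_apply, Fin.prod_univ_three, ← Complex.exp_add, Pi.neg_apply, Jd,
    Pi.smul_apply, smul_eq_mul]
  congr 1
  push_cast
  ring

theorem coeff_eq {φ : (Fin 3 → ℝ) → ℂ} (h : CPer φ) (J : Fin 3 → ℤ) :
    UnitAddTorus.mFourierCoeff (dn h) J = tm J φ := by
  unfold UnitAddTorus.mFourierCoeff tm
  refine int_eq _ _ fun x => ?_
  rw [mf_pr, dn_pr, smul_eq_mul, mul_comm]

theorem main {φ ψ : (Fin 3 → ℝ) → ℂ} (hφ : CPer φ) (hψ : CPer ψ) :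
    HasSum (fun J : Fin 3 → ℤ => tm J φ * (starRingEnd ℂ) (tm J ψ))
      ((((2 * Real.pi) ^ 3)⁻¹ : ℝ) * ∫ θ in T3, φ θ * (starRingEnd ℂ) (ψ θ)) := by
  have h1 := UnitAddTorus.hasSum_prod_mFourierCoeff
    (ContinuousMap.toLp (E := ℂ) 2 volume ℂ (dn hψ)) (ContinuousMap.toLp (E := ℂ) 2 volume ℂ (dn hφ))
  simp only [UnitAddTorus.mFourierCoeff_toLp, coeff_eq] at h1
  have h2 : ∫ t, conj ((ContinuousMap.toLp (E := ℂ) 2 volume ℂ (dn hψ)) t) *
      (ContinuousMap.toLp (E := ℂ) 2 volume ℂ (dn hφ)) t =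
      ∫ t, dn hφ t * conj (dn hψ t) := by
    refine integral_congr_ae ?_
    filter_upwards [ContinuousMap.coeFn_toLp (p := 2) (𝕜 := ℂ) volume (dn hψ),
      ContinuousMap.coeFn_toLp (p := 2) (𝕜 := ℂ) volume (dn hφ)] with t ht1 ht2
    rw [ht1, ht2, mul_comm]
  rw [h2, int_eq _ (fun θ => φ θ * conj (ψ θ)) fun x => by rw [dn_pr, dn_pr]] at h1
  simpa only [mul_comm] using h1

end Pool.Agent.Helper31.AB.PARS

namespace Pool.Agent.Helper10.AB

open Pool.Agent.Helper31.AB.PARS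

theorem pars : S_PARS := by
  refine ⟨fun φ ψ hφ hψ => main hφ hψ, fun φ hφ => ?_⟩
  have h1 := Complex.hasSum_re (main hφ hφ)
  have e1 : ∀ z : ℂ, z * (starRingEnd ℂ) z = ((‖z‖ ^ 2 : ℝ) : ℂ) := by
    intro z
    rw [Complex.mul_conj, Complex.normSq_eq_norm_sq]
  have e2 : ∫ θ in T3, φ θ * (starRingEnd ℂ) (φ θ) = ((∫ θ in T3, ‖φ θ‖ ^ 2 : ℝ) : ℂ) := by
    rw [← integral_complex_ofReal]
    congr 1
    funext θ
    exact e1 _
  rw [e2, ← Complex.ofReal_mul, Complex.ofReal_re] at h1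
  have e3 : (fun J => (tm J φ * (starRingEnd ℂ) (tm J φ)).re) = fun J => ‖tm J φ‖ ^ 2 := by
    funext J
    rw [e1, Complex.ofReal_re]
  rw [e3] at h1
  exact h1

end Pool.Agent.Helper10.AB
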