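import Pool.Agent.Helper10.AB.GoalsF4

/-! Packet AB FM SHF (MP_1ef41b_an): the strip is the disjoint union of the translates of the
cell. -/

open MeasureTheory Set Filter Topology

noncomputable section

namespace Pool.Agent.Helper31.AB.SHF

open Pool.Agent.Helper24.AB

/-- the translated cell -/
def ck (a : ℝ) (k : ℤ) : Set ℂ := {w | w - k * (2 * Real.pi * Complex.I) ∈ cell a}

theorem tr_re (w : ℂ) (k : ℤ) : (w - k * (2 * Real.pi * Complex.I)).re = w.re := by
  simp [Complex.sub_re, Complex.mul_re]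

theorem tr_im (w : ℂ) (k : ℤ) : (w - k * (2 * Real.pi * Complex.I)).im = w.im - k * (2 * Real.pi) := by
  simp [Complex.sub_im, Complex.mul_im]

theorem mem_ck {a : ℝ} {k : ℤ} {w : ℂ} : w ∈ ck a k ↔
    |w.re| < a ∧ (k : ℝ) * (2 * Real.pi) ≤ w.im ∧ w.im < (k + 1 : ℝ) * (2 * Real.pi) := by
  unfold ck cell
  simp only [Set.mem_ofPred_eq, tr_re, tr_im]
  constructor
  · rintro ⟨h1, h2, h3⟩
    exact ⟨h1, by linarith, by linarith⟩
  · rintro ⟨h1, h2, h3⟩
    exact ⟨h1, by linarith, by linarith⟩

theorem meas_cell (a : ℝ) : MeasurableSet (cell a) := by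
  have h1 : MeasurableSet {w : ℂ | |w.re| < a} :=
    measurableSet_lt (by fun_prop) measurable_const
  have h2 : MeasurableSet {w : ℂ | 0 ≤ w.im} :=
    measurableSet_le measurable_const Complex.measurable_im
  have h3 : MeasurableSet {w : ℂ | w.im < 2 * Real.pi} :=
    measurableSet_lt Complex.measurable_im measurable_const
  exact h1.inter (h2.inter h3)

theorem meas_ck (a : ℝ) (k : ℤ) : MeasurableSet (ck a k) :=
  (meas_cell a).preimage (measurable_id.sub_const _)

theorem union_ck (a : ℝ) : ⋃ k : ℤ, ck a k = strip a := by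
  ext w
  rw [mem_iUnion]
  constructor
  · rintro ⟨k, hk⟩
    exact (mem_ck.1 hk).1
  · intro h
    have hpi : (0 : ℝ) < 2 * Real.pi := by positivity
    refine ⟨⌊w.im / (2 * Real.pi)⌋, mem_ck.2 ⟨h, ?_, ?_⟩⟩
    · rw [← le_div_iff₀ hpi]
      exact Int.floor_le _
    · rw [← div_lt_iff₀ hpi]
      exact Int.lt_floor_add_one _

theorem disj_ck (a : ℝ) : Pairwise (Function.onFun Disjoint (ck a)) := by
  intro k l hkl
  rw [Function.onFun, Set.disjoint_left]
  intro w hk hl
  apply hkl
  have hpi : (0 : ℝ) < 2 * Real.pi := by positivity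
  obtain ⟨-, h1, h2⟩ := mem_ck.1 hk
  obtain ⟨-, h3, h4⟩ := mem_ck.1 hl
  have h5 : (k : ℝ) < l + 1 := by
    by_contra h
    push Not at h
    have := mul_le_mul_of_nonneg_right h hpi.le
    linarith
  have h6 : (l : ℝ) < k + 1 := by
    by_contra h
    push Not at h
    have := mul_le_mul_of_nonneg_right h hpi.le
    linarith
  have h7 : k < l + 1 := by exact_mod_cast h5
  have h8 : l < k + 1 := by exact_mod_cast h6
  omega

theorem pre_ck (a : ℝ) (k : ℤ) :
    (fun w : ℂ => w + k * (2 * Real.pi * Complex.I)) ⁻¹' ck a k = cell a := by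
  ext w
  rw [mem_preimage]
  unfold ck
  rw [Set.mem_ofPred_eq, add_sub_cancel_right]

theorem int_ck {E : Type} [NormedAddCommGroup E] [NormedSpace ℝ E] (a : ℝ) (φ : ℂ → E) (k : ℤ) :
    ∫ w in ck a k, φ w = ∫ w in cell a, φ (w + k * (2 * Real.pi * Complex.I)) := by
  have h := (measurePreserving_add_right (volume : Measure ℂ)
    (k * (2 * Real.pi * Complex.I))).setIntegral_preimage_emb
    (MeasurableEquiv.addRight (k * (2 * Real.pi * Complex.I))).measurableEmbedding φ (ck a k)
  rw [pre_ck] at h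
  exact h.symm

theorem intOn_ck {E : Type} [NormedAddCommGroup E] (a : ℝ) (φ : ℂ → E) (k : ℤ) :
    IntegrableOn φ (ck a k) ↔
      IntegrableOn (fun w => φ (w + k * (2 * Real.pi * Complex.I))) (cell a) := by
  have h := (measurePreserving_add_right (volume : Measure ℂ)
    (k * (2 * Real.pi * Complex.I))).integrableOn_comp_preimage
    (MeasurableEquiv.addRight (k * (2 * Real.pi * Complex.I))).measurableEmbedding
    (f := φ) (s := ck a k)
  rw [pre_ck] at h
  exact h.symm

end Pool.Agent.Helper31.AB.SHF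

namespace Pool.Agent.Helper10.AB

open Pool.Agent.Helper24.AB Pool.Agent.Helper31.AB.SHF

theorem shf : S_SHF := by
  intro a E _ _ _ φ ha
  constructor
  · intro h
    rw [← union_ck] at h ⊢
    have h1 := hasSum_integral_iUnion (meas_ck a) (disj_ck a) h
    simpa only [int_ck] using h1
  · intro h hs
    rw [← union_ck]
    refine integrableOn_iUnion_of_summable_integral_norm (fun k => (intOn_ck a φ k).2 (h k)) ?_
    have e : (fun k : ℤ => ∫ w in ck a k, ‖φ w‖) =
        fun k : ℤ => ∫ w in cell a, ‖φ (w + k * (2 * Real.pi * Complex.I))‖ := by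
      funext k
      exact int_ck a (fun w => ‖φ w‖) k
    rw [e]
    exact hs

end Pool.Agent.Helper10.AB
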