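import Pool.Agent.Helper15.AB.GoalsG

/-!
# Project AB (MP_1ef41b_an), module DF, packet LAPC: the Laplacian of `u ∘ γ` for a holomorphic disc
-/

open MeasureTheory Set Filter Topology
open scoped ContDiff

noncomputable section

namespace Pool.Agent.Helper31.AB

open Pool.Agent.Helper24.AB Pool.Agent.Helper15.AB

/-- LAPC. -/
theorem lapc : S_LAPC := by
  intro m D γ u w hD hγ hw hu
  -- real derivative of `γ` and of `γ'`
  have hg : ∀ w' ∈ D, HasFDerivAt (𝕜 := ℝ) γ
      ((ContinuousLinearMap.toSpanSingleton ℂ (deriv γ w')).restrictScalars ℝ) w' := by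
    intro w' hw'
    have h1 : HasDerivAt γ (deriv γ w') w' :=
      ((hγ w' hw').differentiableAt (hD.mem_nhds hw')).hasDerivAt
    exact h1.hasFDerivAt.restrictScalars ℝ
  have hγ' : DifferentiableOn ℂ (deriv γ) D := hγ.deriv hD
  have hg' : HasFDerivAt (𝕜 := ℝ) (deriv γ)
      ((ContinuousLinearMap.toSpanSingleton ℂ (deriv (deriv γ) w)).restrictScalars ℝ) w := by
    have h1 : HasDerivAt (deriv γ) (deriv (deriv γ) w) w :=
      ((hγ' w hw).differentiableAt (hD.mem_nhds hw)).hasDerivAt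
    exact h1.hasFDerivAt.restrictScalars ℝ
  -- `u` is differentiable near `γ w`
  have hev : ∀ᶠ z in 𝓝 (γ w), DifferentiableAt ℝ u z := by
    have h1 : ∀ᶠ z in 𝓝 (γ w), ContDiffAt ℝ 2 u z := hu.eventually (by simp)
    filter_upwards [h1] with z hz
    exact hz.differentiableAt (by simp)
  have hcont : ContinuousAt γ w := (hg w hw).continuousAt
  have hev2 : ∀ᶠ w' in 𝓝 w, w' ∈ D ∧ DifferentiableAt ℝ u (γ w') :=
    Filter.Eventually.and (hD.mem_nhds hw) (hcont.eventually hev)
  have hS : dS (fun w => u (γ w)) =ᶠ[𝓝 w] fun w' => fderiv ℝ u (γ w') (deriv γ w') := by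
    filter_upwards [hev2] with w' hw'
    have h1 := hw'.2.hasFDerivAt.comp w' (hg w' hw'.1)
    have h2 : fderiv ℝ (fun w => u (γ w)) w' = _ := h1.fderiv
    simp only [dS, h2]
    simp
  have hT : dT (fun w => u (γ w)) =ᶠ[𝓝 w] fun w' => fderiv ℝ u (γ w') (Complex.I • deriv γ w') := by
    filter_upwards [hev2] with w' hw'
    have h1 := hw'.2.hasFDerivAt.comp w' (hg w' hw'.1)
    have h2 : fderiv ℝ (fun w => u (γ w)) w' = _ := h1.fderiv
    simp only [dT, h2]
    simp
  -- derivative of `w' ↦ Du(γ w')`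
  have hDu : HasFDerivAt (fderiv ℝ u) (fderiv ℝ (fderiv ℝ u) (γ w)) (γ w) := by
    have h1 : ContDiffAt ℝ 1 (fderiv ℝ u) (γ w) := hu.fderiv_right (by norm_num)
    exact (h1.differentiableAt (by simp)).hasFDerivAt
  have hc := hDu.comp w (hg w hw)
  have hS2 := hc.clm_apply hg'
  have hT2 := hc.clm_apply (hg'.const_smul Complex.I)
  have e1 : dS (dS (fun w => u (γ w))) w =
      (fderiv ℝ (fderiv ℝ u) (γ w) (deriv γ w)) (deriv γ w) +
        fderiv ℝ u (γ w) (deriv (deriv γ) w) := by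
    have : fderiv ℝ (dS (fun w => u (γ w))) w = _ := hS.fderiv_eq.trans hS2.fderiv
    rw [show dS (dS (fun w => u (γ w))) w = fderiv ℝ (dS (fun w => u (γ w))) w 1 from rfl, this]
    simp [add_comm]
  have e2 : dT (dT (fun w => u (γ w))) w =
      (fderiv ℝ (fderiv ℝ u) (γ w) (Complex.I • deriv γ w)) (Complex.I • deriv γ w) -
        fderiv ℝ u (γ w) (deriv (deriv γ) w) := by
    have : fderiv ℝ (dT (fun w => u (γ w))) w = _ := hT.fderiv_eq.trans hT2.fderiv
    rw [show dT (dT (fun w => u (γ w))) w = fderiv ℝ (dT (fun w => u (γ w))) w Complex.I from rfl,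
      this]
    simp [smul_smul]
    ring
  rw [lapC, e1, e2, leviForm]
  ring

end Pool.Agent.Helper31.AB
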