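import Pool.Agent.Helper24.AB.AN.Goals

/-!
# Project AB (MP_1ef41b_an), module AN, packet SOL: existence of the solution (Riesz)
-/

open MeasureTheory Set Filter Topology
open scoped ContDiff InnerProductSpace

noncomputable section

namespace Pool.Agent.Helper31.AB

open Pool.Agent.Helper24.AB

/-- The abstract form. -/
theorem abstract_sol {H : Type*} [NormedAddCommGroup H] [InnerProductSpace ℂ H] [CompleteSpace H]
    {V : Type*} [AddCommGroup V] [Module ℂ V] (i D : V →ₗ[ℂ] H) (c : ℝ) (hc : 0 ≤ c)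
    (hb : ∀ φ, ‖i φ‖ ≤ c * ‖D φ‖) (Xa Xb : H) :
    ∃ z y : H, (z, y) ∈ closure (Set.range fun φ => (i φ, D φ)) ∧
      ∀ φ, ⟪D φ, y⟫_ℂ = ⟪i φ, Xa⟫_ℂ + ⟪D φ, Xb⟫_ℂ := by
  let E := WithLp 2 (H × H)
  let j : V →ₗ[ℂ] E := (WithLp.linearEquiv 2 ℂ (H × H)).symm.toLinearMap ∘ₗ (i.prod D)
  have hj : ∀ φ, j φ = WithLp.toLp 2 (i φ, D φ) := fun φ => rfl
  let G : Submodule ℂ E := (LinearMap.range j).topologicalClosure
  have hGc : IsClosed (G : Set E) := Submodule.isClosed_topologicalClosure _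
  have : CompleteSpace G := hGc.completeSpace_coe
  have hGb : ∀ g ∈ G, ‖(WithLp.ofLp g).1‖ ≤ c * ‖(WithLp.ofLp g).2‖ := by
    intro g hg
    have hcl : IsClosed {g : E | ‖(WithLp.ofLp g).1‖ ≤ c * ‖(WithLp.ofLp g).2‖} := by
      apply isClosed_le
      · exact ((WithLp.fstL 2 ℂ H H).continuous.norm)
      · exact ((WithLp.sndL 2 ℂ H H).continuous.norm).const_mul c |>.congr fun _ => rfl
    have hsub : (LinearMap.range j : Set E) ⊆ {g : E | ‖(WithLp.ofLp g).1‖ ≤ c * ‖(WithLp.ofLp g).2‖} := by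
      rintro _ ⟨φ, rfl⟩
      exact hb φ
    have : (G : Set E) ⊆ {g : E | ‖(WithLp.ofLp g).1‖ ≤ c * ‖(WithLp.ofLp g).2‖} := by
      have h := closure_minimal hsub hcl
      rw [Submodule.topologicalClosure_coe]
      exact h
    exact this hg
  let P : G →L[ℂ] H := (WithLp.sndL 2 ℂ H H).comp G.subtypeL
  have hPv : ∀ g : G, P g = (WithLp.ofLp (g : E)).2 := fun g => rfl
  have hPb : ∀ g : G, ‖g‖ ≤ (⟨c + 1, by linarith⟩ : NNReal) * ‖P g‖ := by
    intro g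
    have h1 := hGb g g.2
    have h2 : ‖(g : E)‖ ^ 2 = ‖(g : E).fst‖ ^ 2 + ‖(g : E).snd‖ ^ 2 :=
      WithLp.prod_norm_sq_eq_of_L2 (g : E)
    have h3 : ‖g‖ = ‖(g : E)‖ := rfl
    have h4 : ‖P g‖ = ‖(g : E).snd‖ := rfl
    have h5 : ‖(g : E).fst‖ ≤ c * ‖(g : E).snd‖ := h1
    rw [h3, h4]
    change ‖(g : E)‖ ≤ (c + 1) * ‖(g : E).snd‖
    apply le_of_sq_le_sq _ (by positivity)
    rw [h2]
    have h6 : 0 ≤ ‖(g : E).snd‖ := norm_nonneg _
    have h7 : ‖(g : E).fst‖ ^ 2 ≤ (c * ‖(g : E).snd‖) ^ 2 :=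
      pow_le_pow_left₀ (norm_nonneg _) h5 2
    nlinarith [mul_nonneg hc (mul_nonneg h6 h6)]
  have hanti : AntilipschitzWith ⟨c + 1, by linarith⟩ P := P.antilipschitz_of_bound hPb
  have hinj : Function.Injective P := hanti.injective
  have hclo : IsClosed (Set.range P) := hanti.isClosed_range P.uniformContinuous
  let e := P.equivRange hinj hclo
  have : CompleteSpace (LinearMap.range (P : G →ₗ[ℂ] H)) := hclo.completeSpace_coe
  let ξ : E := WithLp.toLp 2 (Xa, Xb)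
  let L : StrongDual ℂ (LinearMap.range (P : G →ₗ[ℂ] H)) :=
    ((innerSL ℂ ξ).comp G.subtypeL).comp (e.symm : _ →L[ℂ] G)
  let y0 : LinearMap.range (P : G →ₗ[ℂ] H) := (InnerProductSpace.toDual ℂ _).symm L
  let g0 : G := e.symm y0
  have hg0 : P g0 = (y0 : H) := by
    have : e g0 = y0 := e.apply_symm_apply y0
    have h2 := congrArg (fun r : LinearMap.range (P : G →ₗ[ℂ] H) => (r : H)) this
    exact h2
  refine ⟨(WithLp.ofLp (g0 : E)).1, (y0 : H), ?_, ?_⟩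
  · have h1 : (g0 : E) ∈ closure (LinearMap.range j : Set E) := by
      have := g0.2
      rwa [← SetLike.mem_coe, Submodule.topologicalClosure_coe] at this
    have h2 : ((WithLp.ofLp (g0 : E)).1, (y0 : H)) = WithLp.ofLp (g0 : E) := by
      rw [← hg0, hPv]
    rw [h2]
    have h3 : WithLp.ofLp (g0 : E) ∈ closure ((WithLp.ofLp : E → H × H) '' (LinearMap.range j : Set E)) :=
      image_closure_subset_closure_image (WithLp.prodContinuousLinearEquiv 2 ℂ H H).continuous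
        ⟨_, h1, rfl⟩
    refine closure_mono ?_ h3
    rintro _ ⟨_, ⟨φ, rfl⟩, rfl⟩
    exact ⟨φ, rfl⟩
  · intro φ
    have hm : j φ ∈ G := Submodule.le_topologicalClosure _ ⟨φ, rfl⟩
    let gφ : G := ⟨j φ, hm⟩
    have h1 : ⟪y0, e gφ⟫_ℂ = L (e gφ) := by
      exact InnerProductSpace.toDual_symm_apply
    have h2 : L (e gφ) = ⟪ξ, (gφ : E)⟫_ℂ := by
      change ⟪ξ, ((e.symm (e gφ) : G) : E)⟫_ℂ = _
      rw [e.symm_apply_apply]
    have h3 : ⟪y0, e gφ⟫_ℂ = ⟪(y0 : H), D φ⟫_ℂ := rfl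
    have h4 : ⟪ξ, (gφ : E)⟫_ℂ = ⟪Xa, i φ⟫_ℂ + ⟪Xb, D φ⟫_ℂ := rfl
    have h5 : ⟪(y0 : H), D φ⟫_ℂ = ⟪Xa, i φ⟫_ℂ + ⟪Xb, D φ⟫_ℂ := by
      rw [← h3, h1, h2, h4]
    have h6 := congrArg (starRingEnd ℂ) h5
    rw [map_add, inner_conj_symm, inner_conj_symm, inner_conj_symm] at h6
    exact h6

lemma dz_add {φ ψ : ℂ → ℂ} (hφ : Differentiable ℝ φ) (hψ : Differentiable ℝ ψ) (w : ℂ) :
    dz (fun w => φ w + ψ w) w = dz φ w + dz ψ w := by
  have h : fderiv ℝ (fun w => φ w + ψ w) w = fderiv ℝ φ w + fderiv ℝ ψ w :=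
    fderiv_fun_add (hφ w) (hψ w)
  simp only [dz, dS, dT, h, add_apply]
  ring

lemma dz_const_mul {φ : ℂ → ℂ} (hφ : Differentiable ℝ φ) (c w : ℂ) :
    dz (fun w => c * φ w) w = c * dz φ w := by
  have h : fderiv ℝ (fun w => c * φ w) w = c • fderiv ℝ φ w := fderiv_const_mul (hφ w) c
  simp only [dz, dS, dT, h, smul_apply, smul_eq_mul]
  ring

/-- The space of test functions. -/
def Tst (a : ℝ) : Submodule ℂ (ℂ → ℂ) where
  carrier := {φ | IsTest a φ}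
  add_mem' := by
    rintro φ ψ ⟨h1, h2, h3⟩ ⟨k1, k2, k3⟩
    refine ⟨h1.add k1, h2.add k2, ?_⟩
    exact (tsupport_add _ _).trans (union_subset h3 k3)
  zero_mem' := by
    refine ⟨contDiff_const, HasCompactSupport.zero, ?_⟩
    simp [tsupport]
  smul_mem' := by
    rintro c φ ⟨h1, h2, h3⟩
    refine ⟨contDiff_const.smul h1, h2.smul_left (f := fun _ => c), ?_⟩
    exact (closure_mono (Function.support_const_smul_subset c φ)).trans h3

/-- **SOL.** Existence of the solution. -/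
theorem sol (hdom : S_DOM) (hdomb : S_DOMB) : S_SOL := by
  intro a Φ Xa Xb ha hΦ hlap hXa hXb
  obtain ⟨-, -, -, hD5⟩ := hdom a Φ ha hΦ
  have hB := hdomb a Φ ha hΦ hlap
  have hmz : ∀ φ : Tst a, MemLp (φ : ℂ → ℂ) 2 (muS a) := fun φ => (hD5 φ φ.2).memz
  have hmy : ∀ φ : Tst a, MemLp (Dop Φ (φ : ℂ → ℂ)) 2 (muS a) := fun φ => (hD5 φ φ.2).memy
  have hdiff : ∀ φ : Tst a, Differentiable ℝ (φ : ℂ → ℂ) := fun φ => φ.2.1.differentiable (by simp)
  have hDadd : ∀ φ ψ : Tst a, Dop Φ ((φ + ψ : Tst a) : ℂ → ℂ) =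
      Dop Φ (φ : ℂ → ℂ) + Dop Φ (ψ : ℂ → ℂ) := by
    intro φ ψ
    funext w
    have h := dz_add (hdiff φ) (hdiff ψ) w
    simp only [Dop, Pi.add_apply, Submodule.coe_add]
    have h' : dz ((φ : ℂ → ℂ) + (ψ : ℂ → ℂ)) w = dz (φ : ℂ → ℂ) w + dz (ψ : ℂ → ℂ) w := h
    rw [h']
    ring
  have hDsmul : ∀ (c : ℂ) (φ : Tst a), Dop Φ ((c • φ : Tst a) : ℂ → ℂ) =
      c • Dop Φ (φ : ℂ → ℂ) := by
    intro c φ
    funext w
    have h := dz_const_mul (hdiff φ) c w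
    simp only [Dop, Pi.smul_apply, Submodule.coe_smul, smul_eq_mul]
    have h' : dz (c • (φ : ℂ → ℂ)) w = c * dz (φ : ℂ → ℂ) w := h
    rw [h']
    ring
  let i : Tst a →ₗ[ℂ] Lp ℂ 2 (muS a) :=
    { toFun := fun φ => (hmz φ).toLp _
      map_add' := fun φ ψ => rfl
      map_smul' := fun c φ => rfl }
  let D : Tst a →ₗ[ℂ] Lp ℂ 2 (muS a) :=
    { toFun := fun φ => (hmy φ).toLp _
      map_add' := by
        intro φ ψ
        rw [← MemLp.toLp_add]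
        congr 1
        exact hDadd φ ψ
      map_smul' := by
        intro c φ
        rw [RingHom.id_apply, ← MemLp.toLp_const_smul]
        congr 1
        exact hDsmul c φ }
  -- inner products of classes
  have hinner : ∀ (f g : ℂ → ℂ) (hf : MemLp f 2 (muS a)) (hg : MemLp g 2 (muS a)),
      ⟪hf.toLp f, hg.toLp g⟫_ℂ = ∫ w in strip a, g w * (starRingEnd ℂ) (f w) := by
    intro f g hf hg
    rw [L2.inner_def]
    apply integral_congr_ae
    filter_upwards [hf.coeFn_toLp, hg.coeFn_toLp] with w h1 h2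
    rw [h1, h2]
    rfl
  have hnorm : ∀ (f : ℂ → ℂ) (hf : MemLp f 2 (muS a)),
      ‖hf.toLp f‖ ^ 2 = ∫ w in strip a, ‖f w‖ ^ 2 := by
    intro f hf
    have h1 := inner_self_eq_norm_sq_to_K (𝕜 := ℂ) (hf.toLp f)
    rw [hinner f f hf hf] at h1
    have h2 : (∫ w in strip a, f w * (starRingEnd ℂ) (f w)) =
        ((∫ w in strip a, ‖f w‖ ^ 2 : ℝ) : ℂ) := by
      rw [← integral_complex_ofReal]
      congr 1
      funext w
      rw [Complex.mul_conj, Complex.normSq_eq_norm_sq]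
    rw [h2] at h1
    have h3 : ((∫ w in strip a, ‖f w‖ ^ 2 : ℝ) : ℂ) = ((‖hf.toLp f‖ ^ 2 : ℝ) : ℂ) := by
      rw [h1]; push_cast; rfl
    exact (Complex.ofReal_injective h3).symm
  have hb : ∀ φ, ‖i φ‖ ≤ 4 * a * ‖D φ‖ := by
    intro φ
    apply le_of_sq_le_sq _ (by positivity)
    have h1 := hB φ _ (hD5 φ φ.2)
    have h2 : ‖i φ‖ ^ 2 = ∫ w in strip a, ‖(φ : ℂ → ℂ) w‖ ^ 2 := hnorm _ (hmz φ)
    have h3 : ‖D φ‖ ^ 2 = ∫ w in strip a, ‖Dop Φ (φ : ℂ → ℂ) w‖ ^ 2 := hnorm _ (hmy φ)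
    rw [mul_pow, h2, h3]
    calc (∫ w in strip a, ‖(φ : ℂ → ℂ) w‖ ^ 2)
        ≤ 16 * a ^ 2 * ∫ w in strip a, ‖Dop Φ (φ : ℂ → ℂ) w‖ ^ 2 := h1
      _ = (4 * a) ^ 2 * ∫ w in strip a, ‖Dop Φ (φ : ℂ → ℂ) w‖ ^ 2 := by ring
  obtain ⟨z0, y0, hcl, heq⟩ := abstract_sol i D (4 * a) (by positivity) hb (hXa.toLp Xa) (hXb.toLp Xb)
  refine ⟨z0, y0, ⟨Lp.memLp z0, Lp.memLp y0, ?_⟩, ?_⟩
  · rw [mem_closure_iff_seq_limit] at hcl
    obtain ⟨x, hx, hlim⟩ := hcl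
    choose φ hφ using hx
    refine ⟨fun n => (φ n : ℂ → ℂ), fun n => (φ n).2, ?_, ?_⟩
    · have h1 : Tendsto (fun n => i (φ n)) atTop (𝓝 z0) := by
        have := (continuous_fst.tendsto (z0, y0)).comp hlim
        refine this.congr fun n => ?_
        have := congrArg Prod.fst (hφ n)
        exact this.symm
      have h2 := (Lp.tendsto_Lp_iff_tendsto_eLpNorm' (fun n => i (φ n)) z0).mp h1
      refine h2.congr fun n => ?_
      apply eLpNorm_congr_ae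
      filter_upwards [(hmz (φ n)).coeFn_toLp] with w hw
      simp only [Pi.sub_apply]
      change (((hmz (φ n)).toLp _ : Lp ℂ 2 (muS a)) : ℂ → ℂ) w - z0 w = _
      rw [hw]
    · have h1 : Tendsto (fun n => D (φ n)) atTop (𝓝 y0) := by
        have := (continuous_snd.tendsto (z0, y0)).comp hlim
        refine this.congr fun n => ?_
        have := congrArg Prod.snd (hφ n)
        exact this.symm
      have h2 := (Lp.tendsto_Lp_iff_tendsto_eLpNorm' (fun n => D (φ n)) y0).mp h1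
      refine h2.congr fun n => ?_
      apply eLpNorm_congr_ae
      filter_upwards [(hmy (φ n)).coeFn_toLp] with w hw
      simp only [Pi.sub_apply]
      change (((hmy (φ n)).toLp _ : Lp ℂ 2 (muS a)) : ℂ → ℂ) w - y0 w = _
      rw [hw]
  · intro φ hφ
    have h := heq ⟨φ, hφ⟩
    have h1 : ⟪D ⟨φ, hφ⟩, y0⟫_ℂ = ∫ w in strip a, y0 w * (starRingEnd ℂ) (Dop Φ φ w) := by
      have e1 : y0 = (Lp.memLp y0).toLp _ := (Lp.toLp_coeFn y0 _).symm
      have e2 := hinner _ _ (hmy ⟨φ, hφ⟩) (Lp.memLp y0)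
      rw [← e1] at e2
      exact e2
    have h2 : ⟪i ⟨φ, hφ⟩, hXa.toLp Xa⟫_ℂ = ∫ w in strip a, Xa w * (starRingEnd ℂ) (φ w) :=
      hinner _ _ (hmz ⟨φ, hφ⟩) hXa
    have h3 : ⟪D ⟨φ, hφ⟩, hXb.toLp Xb⟫_ℂ =
        ∫ w in strip a, Xb w * (starRingEnd ℂ) (Dop Φ φ w) :=
      hinner _ _ (hmy ⟨φ, hφ⟩) hXb
    rw [h1, h2, h3] at h
    exact h

end Pool.Agent.Helper31.AB
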